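import Pool.Agent.Helper88.CG.Goals

/-! Vaughan's identity. -/

set_option autoImplicit false

namespace Pool.Agent.Helper49.CG

open Finset ArithmeticFunction

/-- restriction of an arithmetic function -/
noncomputable def res (f : ArithmeticFunction ℝ) (p : ℕ → Prop) [DecidablePred p] :
    ArithmeticFunction ℝ :=
  ⟨fun n => if p n then f n else 0, by simp⟩

lemma res_apply (f : ArithmeticFunction ℝ) (p : ℕ → Prop) [DecidablePred p] (n : ℕ) :
    res f p n = if p n then f n else 0 := rfl

lemma res_mul (f g : ArithmeticFunction ℝ) (p : ℕ → Prop) [DecidablePred p] (n : ℕ) :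
    (res f p * g) n = ∑ b ∈ n.divisors.filter p, f b * g (n / b) := by
  rw [ArithmeticFunction.mul_apply, Nat.sum_divisorsAntidiagonal (fun a b => res f p a * g b),
    Finset.sum_filter]
  refine Finset.sum_congr rfl (fun d _ => ?_)
  rw [res_apply]
  split_ifs
  · rfl
  · rw [zero_mul]

lemma res_add (f : ArithmeticFunction ℝ) (V : ℕ) :
    res f (fun b => b ≤ V) + res f (fun b => V < b) = f := by
  ext n
  rw [ArithmeticFunction.add_apply, res_apply, res_apply]
  by_cases h : n ≤ V
  · rw [if_pos h, if_neg (by omega), add_zero]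
  · rw [if_neg h, if_pos (by omega), zero_add]

lemma div_ne {n b : ℕ} (hn : n ≠ 0) (hb : b ∈ n.divisors) : n / b ≠ 0 := by
  have h1 := Nat.dvd_of_mem_divisors hb
  have h2 : 0 < b := Nat.pos_of_dvd_of_pos h1 (Nat.pos_of_ne_zero hn)
  have h3 : b ≤ n := Nat.le_of_dvd (Nat.pos_of_ne_zero hn) h1
  exact (Nat.div_pos h3 h2).ne'

lemma res_mul_zeta (f : ArithmeticFunction ℝ) (p : ℕ → Prop) [DecidablePred p] {n : ℕ}
    (hn : n ≠ 0) :
    (res f p * ((ArithmeticFunction.zeta : ArithmeticFunction ℕ) : ArithmeticFunction ℝ)) n =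
      ∑ b ∈ n.divisors.filter p, f b := by
  rw [res_mul]
  refine Finset.sum_congr rfl (fun b hb => ?_)
  have h := div_ne hn (Finset.mem_filter.1 hb).1
  rw [ArithmeticFunction.natCoe_apply, ArithmeticFunction.zeta_apply, if_neg h]
  simp

/-- Packet CG-VI. -/
theorem vi : Pool.Agent.Helper88.CG.StmtVI := by
  intro U V n _ hn
  have hn0 : n ≠ 0 := by omega
  set Z : ArithmeticFunction ℝ :=
    ((ArithmeticFunction.zeta : ArithmeticFunction ℕ) : ArithmeticFunction ℝ) with hZ
  set M : ArithmeticFunction ℝ :=
    ((ArithmeticFunction.moebius : ArithmeticFunction ℤ) : ArithmeticFunction ℝ) with hM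
  have hMZ : M * Z = 1 := ArithmeticFunction.coe_moebius_mul_coe_zeta
  have hLZ : ArithmeticFunction.vonMangoldt * Z = ArithmeticFunction.log :=
    ArithmeticFunction.vonMangoldt_mul_zeta
  have key : res M (fun b => b ≤ V) * ArithmeticFunction.log
      + res ArithmeticFunction.vonMangoldt (fun c => U < c) * (res M (fun b => V < b) * Z) =
      res ArithmeticFunction.vonMangoldt (fun c => U < c) +
      res M (fun b => b ≤ V) * (res ArithmeticFunction.vonMangoldt (fun c => c ≤ U) * Z) := by
    have h1 := res_add M V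
    have h2 := res_add ArithmeticFunction.vonMangoldt U
    rw [← hLZ]
    generalize res M (fun b => b ≤ V) = a at h1 ⊢
    generalize res M (fun b => V < b) = b at h1 ⊢
    generalize res ArithmeticFunction.vonMangoldt (fun c => c ≤ U) = c at h2 ⊢
    generalize res ArithmeticFunction.vonMangoldt (fun c => U < c) = d at h2 ⊢
    rw [← h2]
    have h3 : a * ((c + d) * Z) + d * (b * Z) = d * ((a + b) * Z) + a * (c * Z) := by ring
    rw [h3, h1, hMZ, mul_one]
  have key2 := congrArg (fun f : ArithmeticFunction ℝ => f n) key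
  simp only [ArithmeticFunction.add_apply] at key2
  rw [res_apply, if_pos hn, res_mul, res_mul, res_mul] at key2
  rw [← sub_eq_iff_eq_add] at key2
  rw [← key2, add_sub_right_comm]
  have t2 : ∀ b ∈ n.divisors.filter (fun b => b ≤ V),
      M b * (res ArithmeticFunction.vonMangoldt (fun c => c ≤ U) * Z) (n / b) =
      ∑ c ∈ (n / b).divisors.filter (fun c => c ≤ U),
        (ArithmeticFunction.moebius b : ℝ) * ArithmeticFunction.vonMangoldt c := by
    intro b hb
    rw [res_mul_zeta _ _ (div_ne hn0 (Finset.mem_filter.1 hb).1), Finset.mul_sum]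
    refine Finset.sum_congr rfl (fun c _ => ?_)
    rw [hM, ArithmeticFunction.intCoe_apply]
  have t3 : ∀ c ∈ n.divisors.filter (fun c => U < c),
      ArithmeticFunction.vonMangoldt c * (res M (fun b => V < b) * Z) (n / c) =
      ArithmeticFunction.vonMangoldt c *
        ∑ b ∈ (n / c).divisors.filter (fun b => V < b), (ArithmeticFunction.moebius b : ℝ) := by
    intro c hc
    rw [res_mul_zeta _ _ (div_ne hn0 (Finset.mem_filter.1 hc).1)]
    congr 1
  have t1 : ∀ b ∈ n.divisors.filter (fun b => b ≤ V),
      M b * ArithmeticFunction.log (n / b) =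
      (ArithmeticFunction.moebius b : ℝ) * Real.log ((n / b : ℕ) : ℝ) := by
    intro b _
    rw [hM, ArithmeticFunction.intCoe_apply, ArithmeticFunction.log_apply]
  rw [Finset.sum_congr rfl t1, Finset.sum_congr rfl t2, Finset.sum_congr rfl t3]

end Pool.Agent.Helper49.CG
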